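import Pool.Agent.N520.AN.Stm4

/-!
# Project SP, PL (helper645): unimodular groups of a plane are antipodal
-/

set_option autoImplicit false

open Set Filter Topology

namespace Pool.Agent.N645.SP

open Pool.Agent.N520.AN

section

variable {V : Type} [NormedAddCommGroup V] [NormedSpace ℝ V] [FiniteDimensional ℝ V]

/-- an area form -/
lemma ex_area (hV : Module.finrank ℝ V = 2) : ∃ ω : V → V → ℝ,
    Continuous (fun p : V × V => ω p.1 p.2) ∧
    (∀ (A : V ≃ₗ[ℝ] V) (v w : V), ω (A v) (A w) = LinearMap.det (A : V →ₗ[ℝ] V) * ω v w) ∧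
    (∃ C : ℝ, 0 ≤ C ∧ ∀ v w, |ω v w| ≤ C * ‖v‖ * ‖w‖) ∧ ∀ v, v ≠ 0 → ∃ w, ω v w ≠ 0 := by
  let b : Module.Basis (Fin 2) ℝ V := Module.finBasisOfFinrankEq ℝ V hV
  let f0 : V →L[ℝ] ℝ := LinearMap.toContinuousLinearMap (b.coord 0)
  let f1 : V →L[ℝ] ℝ := LinearMap.toContinuousLinearMap (b.coord 1)
  have e0 : ∀ v, f0 v = b.repr v 0 := fun v => rfl
  have e1 : ∀ v, f1 v = b.repr v 1 := fun v => rfl
  have hdet : ∀ v w : V, f0 v * f1 w - f0 w * f1 v = b.det ![v, w] := by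
    intro v w
    rw [Module.Basis.det_apply, Matrix.det_fin_two]
    simp only [Module.Basis.toMatrix_apply, Matrix.cons_val_zero, Matrix.cons_val_one, e0, e1]
  refine ⟨fun v w => f0 v * f1 w - f0 w * f1 v, ?_, ?_, ?_, ?_⟩
  · exact ((f0.continuous.comp continuous_fst).mul (f1.continuous.comp continuous_snd)).sub
      ((f0.continuous.comp continuous_snd).mul (f1.continuous.comp continuous_fst))
  · intro A v w
    show f0 (A v) * f1 (A w) - f0 (A w) * f1 (A v) =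
      LinearMap.det (A : V →ₗ[ℝ] V) * (f0 v * f1 w - f0 w * f1 v)
    rw [hdet, hdet, ← Module.Basis.det_comp]
    congr 1
    funext i
    fin_cases i <;> rfl
  · refine ⟨2 * (‖f0‖ * ‖f1‖), by positivity, fun v w => ?_⟩
    have h1 := f0.le_opNorm v
    have h2 := f0.le_opNorm w
    have h3 := f1.le_opNorm v
    have h4 := f1.le_opNorm w
    calc |f0 v * f1 w - f0 w * f1 v| ≤ |f0 v * f1 w| + |f0 w * f1 v| := abs_sub _ _
      _ = ‖f0 v‖ * ‖f1 w‖ + ‖f0 w‖ * ‖f1 v‖ := by rw [abs_mul, abs_mul]; rfl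
      _ ≤ (‖f0‖ * ‖v‖) * (‖f1‖ * ‖w‖) + (‖f0‖ * ‖w‖) * (‖f1‖ * ‖v‖) := by gcongr
      _ = 2 * (‖f0‖ * ‖f1‖) * ‖v‖ * ‖w‖ := by ring
  · intro v hv
    by_contra hcon
    push Not at hcon
    have h1 := hcon (b 0)
    have h2 := hcon (b 1)
    simp only [e0, e1, Module.Basis.repr_self] at h1 h2
    apply hv
    apply b.repr.injective
    ext i
    fin_cases i
    · simpa using h2
    · simpa using h1

/-- the limit spaces are at most lines -/
lemma att_le_one (hV : Module.finrank ℝ V = 2) {g : ℕ → V ≃ₗ[ℝ] V}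
    (hg : ∀ j, |LinearMap.det (g j : V →ₗ[ℝ] V)| = 1) : Module.finrank ℝ (att g) ≤ 1 := by
  by_contra hcon
  obtain ⟨ω, hc, hA, ⟨C, hC0, hC⟩, hn⟩ := ex_area hV
  have h1 : Module.finrank ℝ (att g) = Module.finrank ℝ V :=
    le_antisymm (Submodule.finrank_le _) (by omega)
  have htop := Submodule.eq_top_of_finrank_eq h1
  have : Nontrivial V := Module.nontrivial_of_finrank_pos (R := ℝ) (by omega)
  obtain ⟨v, hv⟩ := exists_ne (0 : V)
  obtain ⟨w, hw⟩ := hn v hv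
  have hv' : v ∈ att g := by rw [htop]; trivial
  have hw' : w ∈ att g := by rw [htop]; trivial
  obtain ⟨b, hb, hbv⟩ := hv'
  obtain ⟨c, hcc, hcw⟩ := hw'
  have t1 : Tendsto (fun j => |ω (g j (b j)) (g j (c j))|) atTop (𝓝 |ω v w|) :=
    ((hc.tendsto (v, w)).comp (hbv.prodMk_nhds hcw)).abs
  have t2 : Tendsto (fun j => |ω (b j) (c j)|) atTop (𝓝 |ω 0 0|) :=
    ((hc.tendsto ((0 : V), (0 : V))).comp (hb.prodMk_nhds hcc)).abs
  have e : (fun j => |ω (g j (b j)) (g j (c j))|) = fun j => |ω (b j) (c j)| := by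
    funext j
    rw [hA, abs_mul, hg, one_mul]
  rw [e] at t1
  have h2 := tendsto_nhds_unique t1 t2
  have h3 : |ω 0 0| ≤ 0 := by
    have := hC 0 0
    simpa using this
  have h4 : |ω v w| = 0 := le_antisymm (by rw [h2]; exact h3) (abs_nonneg _)
  exact hw (abs_eq_zero.1 h4)

/-- an unbounded sequence has a subsequence with a limit vector -/
lemma sub_of_div {g : ℕ → V ≃ₗ[ℝ] V} (h : Div g) :
    ∃ φ : ℕ → ℕ, StrictMono φ ∧ ∃ e ∈ att (g ∘ φ), e ≠ 0 := by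
  have := FiniteDimensional.proper ℝ V
  obtain ⟨v, hv, hd⟩ := h
  have hb : Tendsto (fun j => (‖g j (v j)‖)⁻¹ • v j) atTop (𝓝 0) := by
    rw [tendsto_zero_iff_norm_tendsto_zero]
    refine squeeze_zero (fun j => norm_nonneg _) (fun j => ?_) (tendsto_inv_atTop_zero.comp hd)
    rw [norm_smul, norm_inv, norm_norm]
    exact mul_le_of_le_one_right (by positivity) (hv j)
  have hn : ∀ j, ‖g j ((‖g j (v j)‖)⁻¹ • v j)‖ ≤ 1 := by
    intro j
    rw [map_smul, norm_smul, norm_inv, norm_norm]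
    exact inv_mul_le_one
  obtain ⟨e, -, φ, hφ, he⟩ := (isCompact_closedBall (0 : V) 1).tendsto_subseq
    (x := fun j => g j ((‖g j (v j)‖)⁻¹ • v j)) (fun j => by
      rw [mem_closedBall_zero_iff]
      exact hn j)
  refine ⟨φ, hφ, e, ⟨fun j => (‖g (φ j) (v (φ j))‖)⁻¹ • v (φ j), hb.comp hφ.tendsto_atTop, he⟩, ?_⟩
  have h1 : ∀ᶠ j in atTop, ‖g (φ j) ((‖g (φ j) (v (φ j))‖)⁻¹ • v (φ j))‖ = 1 := by
    have h2 := (hd.comp hφ.tendsto_atTop).eventually_gt_atTop 0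
    filter_upwards [h2] with j hj
    rw [map_smul, norm_smul, norm_inv, norm_norm]
    exact inv_mul_cancel₀ hj.ne'
  have h3 : Tendsto (fun j => ‖g (φ j) ((‖g (φ j) (v (φ j))‖)⁻¹ • v (φ j))‖) atTop (𝓝 ‖e‖) := he.norm
  have h4 : Tendsto (fun j => ‖g (φ j) ((‖g (φ j) (v (φ j))‖)⁻¹ • v (φ j))‖) atTop (𝓝 1) :=
    tendsto_const_nhds.congr' (h1.mono fun j hj => hj.symm)
  have h5 := tendsto_nhds_unique h3 h4
  intro h0
  rw [h0, norm_zero] at h5
  exact zero_ne_one h5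

/-- the inverses are unbounded -/
lemma div_inv (hV : Module.finrank ℝ V = 2) {g : ℕ → V ≃ₗ[ℝ] V}
    (hg : ∀ j, |LinearMap.det (g j : V →ₗ[ℝ] V)| = 1) {e : V} (he : e ∈ att g) (he0 : e ≠ 0) :
    Div (inv g) := by
  obtain ⟨ω, hc, hA, ⟨C, hC0, hC⟩, hn⟩ := ex_area hV
  obtain ⟨b, hb, hbe⟩ := he
  obtain ⟨f, hf⟩ := hn e he0
  have hf0 : f ≠ 0 := by
    rintro rfl
    have := hC e 0
    rw [norm_zero, mul_zero] at this
    exact hf (abs_eq_zero.1 (le_antisymm this (abs_nonneg _)))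
  have hfp : 0 < ‖f‖ := norm_pos_iff.2 hf0
  have t1 : Tendsto (fun j => |ω (g j (b j)) f|) atTop (𝓝 |ω e f|) :=
    ((hc.tendsto (e, f)).comp (hbe.prodMk_nhds tendsto_const_nhds)).abs
  have hp : 0 < |ω e f| := abs_pos.2 hf
  have t2 : ∀ᶠ j in atTop, |ω e f| / 2 < |ω (g j (b j)) f| :=
    t1.eventually (lt_mem_nhds (by linarith))
  have hw : Tendsto (fun j => ‖(g j).symm f‖) atTop atTop := by
    rw [tendsto_atTop]
    intro R
    have t3 : Tendsto (fun j => C * ‖b j‖ * max R 0) atTop (𝓝 0) := by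
      have h1 := (hb.norm.const_mul C).mul_const (max R 0)
      simpa using h1
    filter_upwards [t2, t3.eventually (gt_mem_nhds (by linarith : (0 : ℝ) < |ω e f| / 2))] with j h1 h2
    by_contra hcon
    rw [not_le] at hcon
    have h3 : |ω (g j (b j)) f| = |ω (b j) ((g j).symm f)| := by
      have h4 := hA (g j) (b j) ((g j).symm f)
      rw [LinearEquiv.apply_symm_apply] at h4
      rw [h4, abs_mul, hg, one_mul]
    have h5 := hC (b j) ((g j).symm f)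
    have h6 : C * ‖b j‖ * ‖(g j).symm f‖ ≤ C * ‖b j‖ * max R 0 :=
      mul_le_mul_of_nonneg_left (hcon.le.trans (le_max_left _ _)) (by positivity)
    rw [h3] at h1
    linarith
  refine ⟨fun _ => ‖f‖⁻¹ • f, fun j => ?_, ?_⟩
  · rw [norm_smul, norm_inv, norm_norm, inv_mul_cancel₀ hfp.ne']
  · have h1 : Tendsto (fun j => ‖f‖⁻¹ * ‖(g j).symm f‖) atTop atTop := hw.const_mul_atTop (by positivity)
    refine h1.congr fun j => ?_
    show ‖f‖⁻¹ * ‖(g j).symm f‖ = ‖(g j).symm (‖f‖⁻¹ • f)‖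
    rw [map_smul, norm_smul, norm_inv, norm_norm]

lemma rank_one (hV : Module.finrank ℝ V = 2) {g : ℕ → V ≃ₗ[ℝ] V}
    (hg : ∀ j, |LinearMap.det (g j : V →ₗ[ℝ] V)| = 1) {e : V} (he : e ∈ att g) (he0 : e ≠ 0) :
    Module.finrank ℝ (att g) = 1 := by
  refine le_antisymm (att_le_one hV hg) ?_
  rw [Submodule.one_le_finrank_iff]
  intro h
  rw [h, Submodule.mem_bot] at he
  exact he0 he

end

/-- **Groups of automorphisms of determinant `±1` of a plane are antipodal.** -/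
theorem t_pl (h : S2_GR) : S4_PL := by
  intro V _ _ _ hV Λ hΛ
  refine ⟨one_pos, ?_, ?_⟩
  · intro g hg hd
    obtain ⟨φ1, hφ1, e1, he1, he10⟩ := sub_of_div hd
    have hd2 : Div (inv (g ∘ φ1)) := div_inv hV (fun j => hΛ _ (hg (φ1 j))) he1 he10
    obtain ⟨φ2, hφ2, e2, he2, he20⟩ := sub_of_div hd2
    obtain ⟨φ3, hφ3, hr⟩ := h V (g ∘ φ1 ∘ φ2)
    have hφ : StrictMono (φ1 ∘ φ2 ∘ φ3) := hφ1.comp (hφ2.comp hφ3)
    have g1 : e1 ∈ att (g ∘ (φ1 ∘ φ2 ∘ φ3)) := att_sub (g ∘ φ1) (hφ2.comp hφ3) he1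
    have g2 : e2 ∈ att (inv (g ∘ φ1 ∘ φ2) ∘ φ3) := att_sub (inv (g ∘ φ1) ∘ φ2) hφ3 he2
    have r1 : Module.finrank ℝ (att (g ∘ (φ1 ∘ φ2 ∘ φ3))) = 1 :=
      rank_one hV (fun j => hΛ _ (hg _)) g1 he10
    have r2 : Module.finrank ℝ (att (inv (g ∘ φ1 ∘ φ2) ∘ φ3)) = 1 :=
      rank_one hV (fun j => hΛ _ (Λ.inv_mem (hg _))) g2 he20
    refine ⟨φ1 ∘ φ2 ∘ φ3, hφ, r1, ?_⟩
    rw [r2] at hr
    exact hr
  · intro g k hg hk hFg hFk
    have a1 : att g = big g := Submodule.eq_of_le_of_finrank_eq (att_le_big g) (by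
      have := hFg.1
      have := hFg.2
      omega)
    have a2 : Module.finrank ℝ (big k) = 1 := by
      have := hFk.2
      omega
    by_cases hb : att g ⊓ big k = ⊥
    · exact Or.inr hb
    · left
      have h1 : 1 ≤ Module.finrank ℝ (att g ⊓ big k : Submodule ℝ V) := Submodule.one_le_finrank_iff.2 hb
      have h2 : att g ⊓ big k = att g := Submodule.eq_of_le_of_finrank_le inf_le_left (by rw [hFg.1]; exact h1)
      have h3 : att g ⊓ big k = big k := Submodule.eq_of_le_of_finrank_le inf_le_right (by rw [a2]; exact h1)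
      rw [← a1, ← h2, h3]

end Pool.Agent.N645.SP
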